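import Mathlib

set_option autoImplicit false
set_option maxHeartbeats 400000

namespace K3h78.TT

open Cardinal

/-- Algebraically independent complex numbers inside a field generated by finitely many
numbers: there are at most as many as generators. -/
theorem count {F : Type} [Field F] [Algebra F ℂ] {ι κ : Type} [Fintype ι] [Fintype κ]
    (g : ι → ℂ) (r : κ → ℂ)
    (hr : AlgebraicIndependent F r)
    (hmem : ∀ j, r j ∈ IntermediateField.adjoin F (Set.range g)) :
    Fintype.card κ ≤ Fintype.card ι := by
  set L := IntermediateField.adjoin F (Set.range g) with hL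
  have hg : ∀ i, g i ∈ L := fun i => IntermediateField.subset_adjoin F _ ⟨i, rfl⟩
  let r' : κ → L := fun j => ⟨r j, hmem j⟩
  have hr' : AlgebraicIndependent F r' := by
    have h := AlgHom.algebraicIndependent_iff (x := r') L.val (Subtype.val_injective)
    rw [← h]
    exact hr
  let g' : ι → L := fun i => ⟨g i, hg i⟩
  have halg : Algebra.IsAlgebraic (Algebra.adjoin F (Set.range g')) L := by
    refine ⟨fun x => ?_⟩
    have hx : (x : ℂ) ∈ IntermediateField.adjoin F (Set.range g) := x.2
    rw [IntermediateField.mem_adjoin_range_iff] at hx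
    obtain ⟨p, q, hpq⟩ := hx
    have hp : ∀ p : MvPolynomial ι F,
        ((MvPolynomial.aeval g' p : L) : ℂ) = MvPolynomial.aeval g p := by
      intro p
      have h1 : (L.val.comp (MvPolynomial.aeval g')) = MvPolynomial.aeval g := by
        apply MvPolynomial.algHom_ext
        intro i
        simp [g']
      exact congrArg (fun f => f p) h1
    have hx2 : x = MvPolynomial.aeval g' p * (MvPolynomial.aeval g' q)⁻¹ := by
      apply Subtype.ext
      push_cast
      rw [hp, hp, hpq, div_eq_mul_inv]
    have mem : ∀ p : MvPolynomial ι F, MvPolynomial.aeval g' p ∈ Algebra.adjoin F (Set.range g') := by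
      intro p
      rw [Algebra.adjoin_range_eq_range_aeval]
      exact ⟨p, rfl⟩
    rw [hx2]
    have h1 : IsAlgebraic (Algebra.adjoin F (Set.range g')) (MvPolynomial.aeval g' p : L) :=
      isAlgebraic_algebraMap (⟨_, mem p⟩ : Algebra.adjoin F (Set.range g'))
    have h2 : IsAlgebraic (Algebra.adjoin F (Set.range g')) (MvPolynomial.aeval g' q : L) :=
      isAlgebraic_algebraMap (⟨_, mem q⟩ : Algebra.adjoin F (Set.range g'))
    exact h1.mul h2.inv
  have h1 := hr'.cardinalMk_le_trdeg
  have h2 := Algebra.IsAlgebraic.trdeg_le_cardinalMk F (Set.range g')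
  have h3 : #(Set.range g') ≤ #ι := Cardinal.mk_range_le
  have h4 := (h1.trans h2).trans h3
  rw [Cardinal.mk_fintype, Cardinal.mk_fintype] at h4
  exact_mod_cast h4

/-- Every finite type indexes an algebraically independent family of real numbers. -/
theorem exists_indep (κ : Type) [Fintype κ] :
    ∃ r : κ → ℝ, AlgebraicIndependent ℚ (fun j => (r j : ℂ)) := by
  obtain ⟨s, hs⟩ := exists_isTranscendenceBasis ℚ ℝ
  have hinf : Infinite s := by
    by_contra hfin
    rw [not_infinite_iff_finite] at hfin
    by_cases hne : Nonempty s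
    · have h := hs.lift_cardinalMk_eq_max_lift
      have h1 : #s < ℵ₀ := Cardinal.lt_aleph0_of_finite s
      simp only [Cardinal.lift_id, Cardinal.mk_real, Cardinal.mkRat] at h
      have h2 : Cardinal.continuum ≤ ℵ₀ := by
        rw [h]
        simp [h1.le]
      exact absurd h2 (not_le.mpr Cardinal.aleph0_lt_continuum)
    · have h := hs.isEmpty_iff_isAlgebraic.mp (not_nonempty_iff.mp hne)
      have h3 := Algebra.IsAlgebraic.cardinalMk_le_max ℚ ℝ
      simp only [Cardinal.mk_real, Cardinal.mkRat, max_self] at h3
      exact absurd h3 (not_le.mpr Cardinal.aleph0_lt_continuum)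
  obtain ⟨f⟩ : Nonempty (κ ↪ s) := by
    have : Cardinal.mk κ ≤ Cardinal.mk s :=
      (Cardinal.lt_aleph0_of_finite κ).le.trans (Cardinal.aleph0_le_mk s)
    exact Cardinal.le_def _ _ |>.mp this
  refine ⟨fun j => (f j : ℝ), ?_⟩
  have h1 : AlgebraicIndependent ℚ (fun j => ((f j : s) : ℝ)) := hs.1.comp f f.injective
  exact h1.map' (f := (Algebra.ofId ℝ ℂ).restrictScalars ℚ) (by
    intro x y hxy
    exact Complex.ofReal_injective hxy)

end K3h78.TT
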