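import Pool.Agent.K3h78.TT.A1

set_option autoImplicit false
set_option maxHeartbeats 400000
set_option linter.unusedSectionVars false

namespace K3h78.TT

open Matrix

/-- An additive map `ℂ → ℂ` that is linear over the subfield `L`, is the identity on `L` and has
values in `L`. -/
structure Retr (L : IntermediateField ℚ ℂ) where
  f : ℂ →+ ℂ
  mem : ∀ z, f z ∈ L
  id' : ∀ a ∈ L, f a = a
  mul' : ∀ a ∈ L, ∀ z, f (a * z) = a * f z

theorem exists_retr (L : IntermediateField ℚ ℂ) : Nonempty (Retr L) := by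
  have hinj : Function.Injective (Algebra.linearMap L ℂ) := by
    intro x y h
    exact Subtype.ext h
  obtain ⟨θ, hθ⟩ := LinearMap.exists_leftInverse_of_injective (Algebra.linearMap L ℂ)
    (LinearMap.ker_eq_bot.mpr hinj)
  refine ⟨{ f := (L.val : L →+* ℂ).toAddMonoidHom.comp θ.toAddMonoidHom
            mem := fun z => (θ z).2
            id' := ?_
            mul' := ?_ }⟩
  · intro a ha
    have := congrArg (fun g => g ⟨a, ha⟩) hθ
    simp only [LinearMap.comp_apply, LinearMap.id_apply] at this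
    have h2 : θ a = ⟨a, ha⟩ := this
    simp [h2]
  · intro a ha z
    have h1 : θ (a * z) = (⟨a, ha⟩ : L) * θ z := by
      have := θ.map_smul (⟨a, ha⟩ : L) z
      simpa [Algebra.smul_def] using this
    simp [h1]

variable {n : Type} [Fintype n] [DecidableEq n]

theorem Retr.mul_left {L : IntermediateField ℚ ℂ} (ρ : Retr L) (A X : Matrix n n ℂ)
    (hA : ∀ i j, A i j ∈ L) : (A * X).map ρ.f = A * X.map ρ.f := by
  ext i j
  simp only [Matrix.map_apply, Matrix.mul_apply, map_sum]
  exact Finset.sum_congr rfl fun k _ => ρ.mul' _ (hA i k) _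

theorem Retr.mul_right {L : IntermediateField ℚ ℂ} (ρ : Retr L) (A X : Matrix n n ℂ)
    (hA : ∀ i j, A i j ∈ L) : (X * A).map ρ.f = X.map ρ.f * A := by
  ext i j
  simp only [Matrix.map_apply, Matrix.mul_apply, map_sum]
  refine Finset.sum_congr rfl fun k _ => ?_
  rw [mul_comm, ρ.mul' _ (hA k j), mul_comm]

theorem Retr.fix {L : IntermediateField ℚ ℂ} (ρ : Retr L) (A : Matrix n n ℂ)
    (hA : ∀ i j, A i j ∈ L) : A.map ρ.f = A := by
  ext i j
  exact ρ.id' _ (hA i j)

theorem Retr.mem_of_fix {L : IntermediateField ℚ ℂ} (ρ : Retr L) (A : Matrix n n ℂ)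
    (hA : A.map ρ.f = A) : ∀ i j, A i j ∈ L := by
  intro i j
  rw [← hA]
  exact ρ.mem _

/-- `T` is determined over `L` by `T Tᴴ`, `T D Tᴴ` and one non-zero entry in every column. -/
theorem mem_of_pencil {L : IntermediateField ℚ ℂ} (T S P Q : Matrix n n ℂ) (d : n → ℂ)
    (hd : Function.Injective d) (hdL : ∀ i, d i ∈ L)
    (hT : IsUnit T.det) (hS : IsUnit S.det)
    (hP : T * S = P) (hQ : T * diagonal d * S = Q)
    (hPL : ∀ i j, P i j ∈ L) (hQL : ∀ i j, Q i j ∈ L)
    (σ : n → n) (hσ : ∀ j, T (σ j) j ≠ 0) (hσL : ∀ j, T (σ j) j ∈ L) :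
    ∀ i j, T i j ∈ L := by
  obtain ⟨ρ⟩ := exists_retr L
  set R : Matrix n n ℂ := T * diagonal d * T⁻¹ with hR
  have hTT : T⁻¹ * T = 1 := Matrix.nonsing_inv_mul _ hT
  have hTT' : T * T⁻¹ = 1 := Matrix.mul_nonsing_inv _ hT
  have hPdet : IsUnit P.det := by
    rw [← hP, Matrix.det_mul]
    exact hT.mul hS
  have hRP : R * P = Q := by
    rw [hR, ← hP, ← hQ]
    calc T * diagonal d * T⁻¹ * (T * S) = T * diagonal d * (T⁻¹ * T) * S := by
          simp only [Matrix.mul_assoc]
      _ = _ := by rw [hTT, Matrix.mul_one]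
  have hRL : ∀ i j, R i j ∈ L := by
    apply ρ.mem_of_fix
    have h1 : R.map ρ.f * P = Q := by
      rw [← ρ.mul_right P R hPL, hRP, ρ.fix Q hQL]
    have h2 : R.map ρ.f * P = R * P := by rw [h1, hRP]
    have h3 := congrArg (fun X => X * P⁻¹) h2
    simpa [Matrix.mul_assoc, Matrix.mul_nonsing_inv _ hPdet] using h3
  have hRT : R * T = T * diagonal d := by
    rw [hR, Matrix.mul_assoc, hTT, Matrix.mul_one]
  have hDL : ∀ i j, (diagonal d) i j ∈ L := by
    intro i j
    by_cases h : i = j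
    · subst h; simpa using hdL i
    · simp [Matrix.diagonal_apply_ne _ h, L.zero_mem]
  have hRT' : R * T.map ρ.f = T.map ρ.f * diagonal d := by
    rw [← ρ.mul_left R T hRL, hRT, ρ.mul_right _ T hDL]
  set E := T⁻¹ * T.map ρ.f with hE
  have hTE : T * E = T.map ρ.f := by
    rw [hE, ← Matrix.mul_assoc, hTT', Matrix.one_mul]
  have hcomm : diagonal d * E = E * diagonal d := by
    have h1 : T⁻¹ * R = diagonal d * T⁻¹ := by
      rw [hR, ← Matrix.mul_assoc, ← Matrix.mul_assoc, hTT, Matrix.one_mul]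
    calc diagonal d * E = (diagonal d * T⁻¹) * T.map ρ.f := by rw [hE, Matrix.mul_assoc]
      _ = T⁻¹ * (R * T.map ρ.f) := by rw [← h1, Matrix.mul_assoc]
      _ = _ := by rw [hRT', hE, Matrix.mul_assoc]
  have hEoff : ∀ i j, i ≠ j → E i j = 0 := by
    intro i j hij
    have h := congrFun (congrFun hcomm i) j
    rw [Matrix.diagonal_mul, Matrix.mul_diagonal] at h
    have h2 : (d i - d j) * E i j = 0 := by linear_combination h
    rcases mul_eq_zero.mp h2 with h3 | h3
    · exact absurd (hd (sub_eq_zero.mp h3)) hij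
    · exact h3
  have hcol : ∀ i j, (T.map ρ.f) i j = T i j * E j j := by
    intro i j
    rw [← hTE, Matrix.mul_apply]
    rw [Finset.sum_eq_single j]
    · intro k _ hk
      rw [hEoff k j hk, mul_zero]
    · intro h
      exact absurd (Finset.mem_univ j) h
  have hEone : ∀ j, E j j = 1 := by
    intro j
    have h := hcol (σ j) j
    rw [Matrix.map_apply, ρ.id' _ (hσL j)] at h
    have h2 : T (σ j) j * (E j j - 1) = 0 := by linear_combination -h
    rcases mul_eq_zero.mp h2 with h3 | h3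
    · exact absurd h3 (hσ j)
    · exact sub_eq_zero.mp h3
  apply ρ.mem_of_fix
  ext i j
  rw [hcol, hEone, mul_one]

/-- `Y` is determined over `L` by the displacement equation. -/
theorem mem_of_displacement {L : IntermediateField ℚ ℂ} (T S Y C : Matrix n n ℂ)
    (hTL : ∀ i j, T i j ∈ L) (hSL : ∀ i j, S i j ∈ L) (hCL : ∀ i j, C i j ∈ L)
    (hY : Y - T * Y * S = C)
    (hinj : ∀ X : Matrix n n ℂ, X - T * X * S = 0 → X = 0) :
    ∀ i j, Y i j ∈ L := by
  obtain ⟨ρ⟩ := exists_retr L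
  apply ρ.mem_of_fix
  have h1 : Y.map ρ.f - T * Y.map ρ.f * S = C := by
    have h2 := congrArg (fun X => X.map ρ.f) hY
    rw [ρ.fix C hCL] at h2
    rw [← h2, ← ρ.mul_left T Y hTL, ← ρ.mul_right S _ hSL]
    ext i j
    simp [Matrix.map_apply, Matrix.sub_apply]
  have h3 := hinj (Y.map ρ.f - Y) (by
    have : Y.map ρ.f - Y - T * (Y.map ρ.f - Y) * S =
        (Y.map ρ.f - T * Y.map ρ.f * S) - (Y - T * Y * S) := by
      rw [Matrix.mul_sub, Matrix.sub_mul]
      abel
    rw [this, h1, hY, sub_self])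
  exact sub_eq_zero.mp h3

end K3h78.TT
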