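import Pool.Agent.K3h78.TT.A2

set_option autoImplicit false
set_option maxHeartbeats 400000
set_option linter.unusedSectionVars false

namespace K3h78.TT

open Matrix

variable {n : Type} [Fintype n] [DecidableEq n]

/-- All eigenvalues in the open disc. -/
def Small (T : Matrix n n ℂ) : Prop :=
  ∀ μ : ℂ, ∀ x : n → ℂ, x ≠ 0 → T *ᵥ x = μ • x → ‖μ‖ < 1

theorem inj_of_small (T : Matrix n n ℂ) (hT : Small T) (X : Matrix n n ℂ)
    (hX : X - T * X * Tᴴ = 0) : X = 0 := by
  by_contra hne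
  let E : Submodule ℂ (Matrix n n ℂ) :=
    { carrier := {X | X - T * X * Tᴴ = 0}
      add_mem' := by
        intro a b ha hb
        simp only [Set.mem_ofPred_eq] at *
        have : a + b - T * (a + b) * Tᴴ = (a - T * a * Tᴴ) + (b - T * b * Tᴴ) := by
          rw [Matrix.mul_add, Matrix.add_mul]; abel
        rw [this, ha, hb, add_zero]
      zero_mem' := by simp
      smul_mem' := by
        intro c a ha
        simp only [Set.mem_ofPred_eq] at *
        have : c • a - T * (c • a) * Tᴴ = c • (a - T * a * Tᴴ) := by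
          rw [Matrix.mul_smul, Matrix.smul_mul, smul_sub]
        rw [this, ha, smul_zero] }
  have hinv : ∀ X : Matrix n n ℂ, X ∈ E → T * X ∈ E := by
    intro X hX
    have h1 : X - T * X * Tᴴ = 0 := hX
    have h2 : X = T * X * Tᴴ := sub_eq_zero.mp h1
    show T * X - T * (T * X) * Tᴴ = 0
    have h3 : T * (T * X) * Tᴴ = T * (T * X * Tᴴ) := by simp only [Matrix.mul_assoc]
    rw [h3, ← h2, sub_self]
  let φ : E →ₗ[ℂ] E :=
    { toFun := fun X => ⟨T * X.1, hinv X.1 X.2⟩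
      map_add' := by
        intro a b
        apply Subtype.ext
        simp [Matrix.mul_add]
      map_smul' := by
        intro c a
        apply Subtype.ext
        simp }
  have : Nontrivial E := by
    refine ⟨⟨⟨X, hX⟩, 0, ?_⟩⟩
    intro h
    exact hne (congrArg Subtype.val h)
  obtain ⟨lam, hlam⟩ := Module.End.exists_eigenvalue φ
  obtain ⟨Z, hZ⟩ := hlam.exists_hasEigenvector
  have hZ1 : T * Z.1 = lam • Z.1 := by
    have := hZ.apply_eq_smul
    exact congrArg Subtype.val this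
  have hZ0 : Z.1 ≠ 0 := fun h => hZ.2 (Subtype.ext h)
  have hZ2 : Z.1 - T * Z.1 * Tᴴ = 0 := Z.2
  obtain ⟨i, j, hij⟩ : ∃ i j, Z.1 i j ≠ 0 := by
    by_contra hcon
    push Not at hcon
    exact hZ0 (by ext i j; exact hcon i j)
  -- column `j` is an eigenvector
  have h1 : ‖lam‖ < 1 := by
    refine hT lam (fun i => Z.1 i j) (fun h => hij (congrFun h i)) ?_
    ext i'
    have := congrFun (congrFun hZ1 i') j
    simpa [Matrix.mul_apply, Matrix.mulVec, dotProduct] using this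
  have h2 : Z.1 = lam • (Z.1 * Tᴴ) := by
    have h3 := sub_eq_zero.mp hZ2
    rw [hZ1, Matrix.smul_mul] at h3
    exact h3
  have hl0 : lam ≠ 0 := by
    rintro rfl
    rw [zero_smul] at h2
    exact hZ0 h2
  -- row `i` is a left eigenvector
  have h3 : ‖(starRingEnd ℂ) lam⁻¹‖ < 1 := by
    refine hT _ (fun j => (starRingEnd ℂ) (Z.1 i j)) (fun h => hij ?_) ?_
    · have := congrFun h j
      simpa using this
    · ext j'
      have h4 := congrFun (congrFun h2 i) j'
      simp only [Matrix.smul_apply, Matrix.mul_apply, Matrix.conjTranspose_apply, smul_eq_mul] at h4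
      simp only [Matrix.mulVec, dotProduct, Pi.smul_apply, smul_eq_mul]
      rw [← map_mul]
      have h5 : lam⁻¹ * Z.1 i j' = ∑ x, Z.1 i x * star (T j' x) := by
        conv_lhs => rw [h4]
        rw [← mul_assoc, inv_mul_cancel₀ hl0, one_mul]
      rw [h5, map_sum]
      refine Finset.sum_congr rfl fun x _ => ?_
      rw [map_mul]
      simp [mul_comm]
  rw [RCLike.norm_conj, norm_inv] at h3
  have h6 : 0 < ‖lam‖ := norm_pos_iff.mpr hl0
  have h7 : 1 < ‖lam‖⁻¹ := (one_lt_inv₀ h6).mpr h1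
  linarith

/-- A real Möbius shift of `T` that makes it invertible. -/
theorem exists_shift (T : Matrix n n ℂ) (hT : Small T) :
    ∃ α : ℝ, 0 < α ∧ α < 1 ∧ IsUnit (T - (α : ℂ) • (1 : Matrix n n ℂ)).det ∧
      IsUnit ((1 : Matrix n n ℂ) - (α : ℂ) • T).det := by
  classical
  have hfin : {α : ℝ | (T.charpoly).eval (α : ℂ) = 0}.Finite := by
    have h1 : {z : ℂ | (T.charpoly).eval z = 0}.Finite := by
      have : {z : ℂ | (T.charpoly).eval z = 0} = ↑(T.charpoly.roots.toFinset) := by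
        ext z
        simp [Polynomial.mem_roots', (Matrix.charpoly_monic T).ne_zero, Polynomial.IsRoot]
      rw [this]
      exact Finset.finite_toSet _
    exact h1.preimage (Complex.ofReal_injective.injOn)
  obtain ⟨α, hα1, hα2⟩ := ((Set.Ioo_infinite (show (0:ℝ) < 1 by norm_num)).sdiff hfin).nonempty
  refine ⟨α, hα1.1, hα1.2, ?_, ?_⟩
  · rw [isUnit_iff_ne_zero]
    intro h
    apply hα2
    show (T.charpoly).eval (α : ℂ) = 0
    rw [Matrix.eval_charpoly]
    have h2 : Matrix.scalar n (α : ℂ) - T = -(T - (α : ℂ) • (1 : Matrix n n ℂ)) := by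
      rw [neg_sub]
      congr 1
      ext i j
      by_cases hij : i = j
      · subst hij; simp
      · simp [Matrix.diagonal_apply_ne _ hij, Matrix.one_apply_ne hij]
    rw [h2, Matrix.det_neg, h, mul_zero]
  · rw [isUnit_iff_ne_zero]
    intro h
    obtain ⟨x, hx0, hx⟩ := Matrix.exists_mulVec_eq_zero_iff.mpr h
    rw [Matrix.sub_mulVec, Matrix.one_mulVec, Matrix.smul_mulVec, sub_eq_zero] at hx
    have hα0 : (α : ℂ) ≠ 0 := by exact_mod_cast hα1.1.ne'
    have h2 : T *ᵥ x = ((α : ℂ)⁻¹) • x := by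
      conv_rhs => rw [hx]
      rw [smul_smul, inv_mul_cancel₀ hα0, one_smul]
    have h3 := hT _ x hx0 h2
    rw [norm_inv, Complex.norm_real, Real.norm_of_nonneg hα1.1.le] at h3
    have : 1 < α⁻¹ := (one_lt_inv₀ hα1.1).mpr hα1.2
    linarith

/-- The Möbius shift preserves the displacement structure. -/
theorem shift_displacement (T N X : Matrix n n ℂ) (α : ℝ)
    (hN : N * ((1 : Matrix n n ℂ) - (α : ℂ) • T) = 1) :
    X - (N * (T - (α : ℂ) • (1 : Matrix n n ℂ))) * X * (N * (T - (α : ℂ) • (1 : Matrix n n ℂ)))ᴴ =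
      ((1 - α ^ 2 : ℝ) : ℂ) • (N * (X - T * X * Tᴴ) * Nᴴ) := by
  have hN' : ((1 : Matrix n n ℂ) - (α : ℂ) • T)ᴴ * Nᴴ = 1 := by
    rw [← Matrix.conjTranspose_mul, hN, Matrix.conjTranspose_one]
  have hX : X = N * (((1 : Matrix n n ℂ) - (α : ℂ) • T) * X *
      ((1 : Matrix n n ℂ) - (α : ℂ) • T)ᴴ) * Nᴴ := by
    calc X = (N * ((1 : Matrix n n ℂ) - (α : ℂ) • T)) * X *
          (((1 : Matrix n n ℂ) - (α : ℂ) • T)ᴴ * Nᴴ) := by rw [hN, hN', Matrix.one_mul, Matrix.mul_one]
      _ = _ := by simp only [Matrix.mul_assoc]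
  have h1 : ((1 : Matrix n n ℂ) - (α : ℂ) • T) * X * ((1 : Matrix n n ℂ) - (α : ℂ) • T)ᴴ -
      (T - (α : ℂ) • (1 : Matrix n n ℂ)) * X * (T - (α : ℂ) • (1 : Matrix n n ℂ))ᴴ =
      ((1 - α ^ 2 : ℝ) : ℂ) • (X - T * X * Tᴴ) := by
    simp only [Matrix.conjTranspose_sub, Matrix.conjTranspose_smul, Matrix.conjTranspose_one,
      RCLike.star_def, Complex.conj_ofReal, Matrix.sub_mul, Matrix.mul_sub, Matrix.one_mul,
      Matrix.mul_one, Matrix.smul_mul, Matrix.mul_smul]
    push_cast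
    module
  have gen : ∀ A B : Matrix n n ℂ, N * A * Nᴴ - N * B * Nᴴ = N * (A - B) * Nᴴ := by
    intro A B
    rw [Matrix.mul_sub, Matrix.sub_mul]
  calc X - (N * (T - (α : ℂ) • (1 : Matrix n n ℂ))) * X *
        (N * (T - (α : ℂ) • (1 : Matrix n n ℂ)))ᴴ
      = N * (((1 : Matrix n n ℂ) - (α : ℂ) • T) * X * ((1 : Matrix n n ℂ) - (α : ℂ) • T)ᴴ) * Nᴴ -
        N * ((T - (α : ℂ) • (1 : Matrix n n ℂ)) * X * (T - (α : ℂ) • (1 : Matrix n n ℂ))ᴴ) * Nᴴ := by
        conv_lhs => rw [hX]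
        rw [← hX, Matrix.conjTranspose_mul]
        simp only [Matrix.mul_assoc]
    _ = N * (((1 : Matrix n n ℂ) - (α : ℂ) • T) * X * ((1 : Matrix n n ℂ) - (α : ℂ) • T)ᴴ -
        (T - (α : ℂ) • (1 : Matrix n n ℂ)) * X * (T - (α : ℂ) • (1 : Matrix n n ℂ))ᴴ) * Nᴴ := by
        exact gen _ _
    _ = _ := by rw [h1, Matrix.mul_smul, Matrix.smul_mul]

end K3h78.TT
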