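import Pool.Agent.K3h78.TT.A3

set_option autoImplicit false
set_option maxHeartbeats 400000
set_option linter.unusedSectionVars false

namespace K3h78.TT

open Matrix

variable {n : Type} [Fintype n] [DecidableEq n]

/-- Main algebraic step: if `1`, `D` (rational diagonal with distinct entries) and `Y` all have
displacement `x k* + k x*` with respect to `T`, then the entries of `Y` lie in a field generated
over `ℚ` by `8 n` numbers. -/
theorem generated (T : Matrix n n ℂ) (Y : Matrix n n ℂ) (k a b : n → ℂ) (d : n → ℚ)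
    (hd : Function.Injective d) (hT : IsUnit T.det)
    (h1 : 1 - T * Tᴴ = vecMulVec k (star k))
    (h2 : diagonal (fun i => (d i : ℂ)) - T * diagonal (fun i => (d i : ℂ)) * Tᴴ =
      vecMulVec a (star k) + vecMulVec k (star a))
    (h3 : Y - T * Y * Tᴴ = vecMulVec b (star k) + vecMulVec k (star b))
    (hinj : ∀ X : Matrix n n ℂ, X - T * X * Tᴴ = 0 → X = 0) :
    ∃ g : n × Fin 8 → ℂ, ∀ i j, Y i j ∈ IntermediateField.adjoin ℚ (Set.range g) := by
  classical
  have hcol : ∀ j, ∃ i, T i j ≠ 0 := by
    intro j
    by_contra hcon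
    push Not at hcon
    have : T.det = 0 := Matrix.det_eq_zero_of_column_eq_zero j hcon
    exact hT.ne_zero this
  choose σ hσ using hcol
  let g : n × Fin 8 → ℂ := fun p =>
    match p.2 with
    | 0 => k p.1
    | 1 => star (k p.1)
    | 2 => a p.1
    | 3 => star (a p.1)
    | 4 => b p.1
    | 5 => star (b p.1)
    | 6 => T (σ p.1) p.1
    | 7 => star (T (σ p.1) p.1)
  refine ⟨g, ?_⟩
  set L := IntermediateField.adjoin ℚ (Set.range g) with hL
  have hg : ∀ p, g p ∈ L := fun p => IntermediateField.subset_adjoin ℚ _ ⟨p, rfl⟩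
  have hk : ∀ i, k i ∈ L := fun i => hg (i, 0)
  have hk' : ∀ i, star (k i) ∈ L := fun i => hg (i, 1)
  have ha : ∀ i, a i ∈ L := fun i => hg (i, 2)
  have ha' : ∀ i, star (a i) ∈ L := fun i => hg (i, 3)
  have hb : ∀ i, b i ∈ L := fun i => hg (i, 4)
  have hb' : ∀ i, star (b i) ∈ L := fun i => hg (i, 5)
  have hc : ∀ j, T (σ j) j ∈ L := fun j => hg (j, 6)
  have hc' : ∀ j, star (T (σ j) j) ∈ L := fun j => hg (j, 7)
  have hdL : ∀ i, (d i : ℂ) ∈ L := fun i => by
    have := L.algebraMap_mem (d i)
    simpa using this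
  have hone : ∀ i j, (1 : Matrix n n ℂ) i j ∈ L := by
    intro i j
    by_cases h : i = j
    · subst h; simp [L.one_mem]
    · simp [Matrix.one_apply_ne h, L.zero_mem]
  have hDL : ∀ i j, (diagonal (fun i => (d i : ℂ))) i j ∈ L := by
    intro i j
    by_cases h : i = j
    · subst h; simpa using hdL i
    · simp [Matrix.diagonal_apply_ne _ h, L.zero_mem]
  have hP : T * Tᴴ = 1 - vecMulVec k (star k) := by rw [← h1]; abel
  have hQ : T * diagonal (fun i => (d i : ℂ)) * Tᴴ =
      diagonal (fun i => (d i : ℂ)) - (vecMulVec a (star k) + vecMulVec k (star a)) := by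
    rw [← h2]; abel
  have hdinj : Function.Injective (fun i => (d i : ℂ)) := by
    intro x y h
    have h' : (d x : ℂ) = d y := h
    exact hd (by exact_mod_cast h')
  have hTh : IsUnit (Tᴴ).det := by
    rw [Matrix.det_conjTranspose]
    exact hT.star
  have hTL : ∀ i j, T i j ∈ L := by
    refine mem_of_pencil T Tᴴ _ _ _ hdinj hdL hT hTh hP hQ ?_ ?_ σ hσ hc
    · intro i j
      simp only [Matrix.sub_apply, Matrix.vecMulVec_apply, Pi.star_apply]
      exact L.sub_mem (hone i j) (L.mul_mem (hk i) (hk' j))
    · intro i j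
      simp only [Matrix.sub_apply, Matrix.add_apply, Matrix.vecMulVec_apply, Pi.star_apply]
      exact L.sub_mem (hDL i j) (L.add_mem (L.mul_mem (ha i) (hk' j)) (L.mul_mem (hk i) (ha' j)))
  -- the conjugate matrix
  have hstar_one : (1 : Matrix n n ℂ).map star = 1 := by
    ext i j
    by_cases h : i = j
    · subst h; simp
    · simp [Matrix.one_apply_ne h]
  have hstar_mul : ∀ A B : Matrix n n ℂ, (A * B).map star = A.map star * B.map star := by
    intro A B
    ext i j
    simp [Matrix.mul_apply, Matrix.map_apply]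
  have hD' : (diagonal (fun i => (d i : ℂ))).map star = diagonal (fun i => (d i : ℂ)) := by
    ext i j
    by_cases h : i = j
    · subst h; simp
    · simp [Matrix.diagonal_apply_ne _ h]
  have hTs : IsUnit (T.map star).det := by
    have : (T.map star) = (Tᴴ)ᵀ := by ext i j; simp
    rw [this, Matrix.det_transpose]
    exact hTh
  have hTs' : IsUnit ((Tᴴ).map star).det := by
    have : ((Tᴴ).map star) = Tᵀ := by ext i j; simp
    rw [this, Matrix.det_transpose]
    exact hT
  have hTL' : ∀ i j, (T.map star) i j ∈ L := by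
    refine mem_of_pencil (T.map star) ((Tᴴ).map star) ((1 - vecMulVec k (star k)).map star)
      ((diagonal (fun i => (d i : ℂ)) -
        (vecMulVec a (star k) + vecMulVec k (star a))).map star) _ hdinj hdL hTs hTs' ?_ ?_ ?_ ?_ σ ?_ ?_
    · rw [← hP, hstar_mul]
    · rw [← hQ, hstar_mul, hstar_mul, hD']
    · intro i j
      simp only [Matrix.map_apply, Matrix.sub_apply, Matrix.vecMulVec_apply, Pi.star_apply,
        star_sub, star_mul', star_star]
      refine L.sub_mem ?_ (L.mul_mem (hk' i) (hk j))
      by_cases h : i = j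
      · subst h; simp [L.one_mem]
      · simp [Matrix.one_apply_ne h, L.zero_mem]
    · intro i j
      simp only [Matrix.map_apply, Matrix.sub_apply, Matrix.add_apply, Matrix.vecMulVec_apply,
        Pi.star_apply, star_sub, star_add, star_mul', star_star]
      refine L.sub_mem ?_ (L.add_mem (L.mul_mem (ha' i) (hk j)) (L.mul_mem (hk' i) (ha j)))
      by_cases h : i = j
      · subst h; simpa using hdL i
      · simp [Matrix.diagonal_apply_ne _ h, L.zero_mem]
    · intro j
      rw [Matrix.map_apply]
      exact star_ne_zero.mpr (hσ j)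
    · intro j
      rw [Matrix.map_apply]
      exact hc' j
  have hTL2 : ∀ i j, Tᴴ i j ∈ L := by
    intro i j
    have := hTL' j i
    simpa using this
  refine mem_of_displacement T Tᴴ Y _ hTL hTL2 ?_ h3 hinj
  intro i j
  simp only [Matrix.add_apply, Matrix.vecMulVec_apply, Pi.star_apply]
  exact L.add_mem (L.mul_mem (hb i) (hk' j)) (L.mul_mem (hk i) (hb' j))

end K3h78.TT
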