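import Mathlib

set_option autoImplicit false
set_option maxHeartbeats 400000
set_option linter.unusedSectionVars false

namespace K3h78.TT

open Matrix

/-- Shape of an eigenvector of `diag D + i y` whose largest entry is the `k`-th. -/
theorem est (D : Fin 16 → ℂ) (hD : ∀ i j, i ≠ j → (10:ℝ)^6 ≤ ‖D i - D j‖)
    (y : Fin 16 → Fin 16 → ℝ) (hy : ∀ i j, 1 ≤ y i j ∧ y i j ≤ 2)
    (x : Fin 16 → ℂ) (μ : ℂ)
    (hx : ∀ j, (μ - D j) * x j = Complex.I * ∑ m, (y j m : ℂ) * x m)
    (k : Fin 16) (hk : x k = 1) (hle : ∀ j, ‖x j‖ ≤ 1) :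
    (∀ j, j ≠ k → ‖D k - D j‖ * ‖x j‖ ≤ 64) ∧ (∀ j, j ≠ k → ‖x j‖ ≤ 64 / 10^6) ∧
      (∀ j, j ≠ k → ‖(D k - D j) * x j - Complex.I * (y j k : ℂ)‖ ≤ 64 * (64 / 10^6)) := by
  have hyn : ∀ i j, ‖(y i j : ℂ)‖ ≤ 2 := by
    intro i j
    rw [Complex.norm_real, Real.norm_of_nonneg (by linarith [(hy i j).1])]
    exact (hy i j).2
  have hS : ∀ j, ‖∑ m, (y j m : ℂ) * x m‖ ≤ 32 := by
    intro j
    calc ‖∑ m, (y j m : ℂ) * x m‖ ≤ ∑ m, ‖(y j m : ℂ) * x m‖ := norm_sum_le _ _
      _ ≤ ∑ _m : Fin 16, (2:ℝ) := by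
          refine Finset.sum_le_sum fun m _ => ?_
          rw [norm_mul]
          have := hyn j m
          have := hle m
          have := norm_nonneg (x m)
          have := norm_nonneg (y j m : ℂ)
          nlinarith
      _ = 32 := by simp; norm_num
  have hμ : ‖μ - D k‖ ≤ 32 := by
    have h := hx k
    rw [hk, mul_one] at h
    rw [h, norm_mul, Complex.norm_I, one_mul]
    exact hS k
  have h1 : ∀ j, j ≠ k → ‖D k - D j‖ * ‖x j‖ ≤ 64 := by
    intro j hj
    have h2 : ‖μ - D j‖ * ‖x j‖ ≤ 32 := by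
      rw [← norm_mul, hx j, norm_mul, Complex.norm_I, one_mul]
      exact hS j
    have h3 : ‖D k - D j‖ ≤ ‖μ - D j‖ + ‖μ - D k‖ := by
      have : D k - D j = (μ - D j) - (μ - D k) := by ring
      rw [this]
      exact norm_sub_le _ _
    have h4 := norm_nonneg (x j)
    have h5 := hle j
    nlinarith [norm_nonneg (μ - D j), norm_nonneg (D k - D j)]
  have h2 : ∀ j, j ≠ k → ‖x j‖ ≤ 64 / 10^6 := by
    intro j hj
    have h3 := h1 j hj
    have h4 := hD k j (Ne.symm hj)
    have h5 := norm_nonneg (x j)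
    rw [le_div_iff₀ (by norm_num)]
    nlinarith
  refine ⟨h1, h2, ?_⟩
  intro j hj
  have h3 : (D k - D j) * x j - Complex.I * (y j k : ℂ) =
      Complex.I * ∑ m ∈ Finset.univ.erase k, (y j m : ℂ) * x m - (μ - D k) * x j := by
    have h4 := hx j
    rw [← Finset.add_sum_erase _ _ (Finset.mem_univ k), hk, mul_one] at h4
    linear_combination h4
  rw [h3]
  have h4 : ‖∑ m ∈ Finset.univ.erase k, (y j m : ℂ) * x m‖ ≤ 32 * (64 / 10^6) := by
    calc ‖∑ m ∈ Finset.univ.erase k, (y j m : ℂ) * x m‖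
        ≤ ∑ m ∈ Finset.univ.erase k, ‖(y j m : ℂ) * x m‖ := norm_sum_le _ _
      _ ≤ ∑ _m ∈ Finset.univ.erase k, (2 * (64 / 10^6) : ℝ) := by
          refine Finset.sum_le_sum fun m hm => ?_
          rw [norm_mul]
          have h5 := hyn j m
          have h6 := h2 m (Finset.ne_of_mem_erase hm)
          have h7 := norm_nonneg (x m)
          have h8 := norm_nonneg (y j m : ℂ)
          nlinarith
      _ ≤ 32 * (64 / 10^6) := by
          rw [Finset.sum_const, Finset.card_erase_of_mem (Finset.mem_univ k)]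
          simp
          norm_num
  calc ‖Complex.I * ∑ m ∈ Finset.univ.erase k, (y j m : ℂ) * x m - (μ - D k) * x j‖
      ≤ ‖Complex.I * ∑ m ∈ Finset.univ.erase k, (y j m : ℂ) * x m‖ + ‖(μ - D k) * x j‖ :=
        norm_sub_le _ _
    _ ≤ 32 * (64 / 10^6) + 32 * (64 / 10^6) := by
        rw [norm_mul, norm_mul, Complex.norm_I, one_mul]
        have h5 := h2 j hj
        have h6 := norm_nonneg (x j)
        have h7 := norm_nonneg (μ - D k)
        nlinarith
    _ = _ := by ring

theorem no_orth_norm (D : Fin 16 → ℂ) (hD : ∀ i j, i ≠ j → (10:ℝ)^6 ≤ ‖D i - D j‖)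
    (hDs : ∀ i, star (D i) = D i)
    (y : Fin 16 → Fin 16 → ℝ) (hy : ∀ i j, 1 ≤ y i j ∧ y i j ≤ 2) (hsym : ∀ i j, y i j = y j i)
    (x z : Fin 16 → ℂ) (μ ν : ℂ)
    (hx : ∀ j, (μ - D j) * x j = Complex.I * ∑ m, (y j m : ℂ) * x m)
    (hz : ∀ j, (ν - D j) * z j = Complex.I * ∑ m, (y j m : ℂ) * z m)
    (k l : Fin 16) (hk : x k = 1) (hl : z l = 1) (hxle : ∀ j, ‖x j‖ ≤ 1) (hzle : ∀ j, ‖z j‖ ≤ 1) :
    ∑ j, star (x j) * z j ≠ 0 := by
  obtain ⟨ex1, ex2, ex3⟩ := est D hD y hy x μ hx k hk hxle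
  obtain ⟨ez1, ez2, ez3⟩ := est D hD y hy z ν hz l hl hzle
  intro h0
  by_cases hkl : k = l
  · subst hkl
    rw [← Finset.add_sum_erase _ _ (Finset.mem_univ k), hk, hl] at h0
    have h1 : ‖∑ j ∈ Finset.univ.erase k, star (x j) * z j‖ ≤ 15 * (64 / 10^6) := by
      calc ‖∑ j ∈ Finset.univ.erase k, star (x j) * z j‖
          ≤ ∑ j ∈ Finset.univ.erase k, ‖star (x j) * z j‖ := norm_sum_le _ _
        _ ≤ ∑ _j ∈ Finset.univ.erase k, ((64 / 10^6) : ℝ) := by
            refine Finset.sum_le_sum fun m hm => ?_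
            rw [norm_mul, norm_star]
            have h5 := hzle m
            have h6 := ex2 m (Finset.ne_of_mem_erase hm)
            have h7 := norm_nonneg (x m)
            have h8 := norm_nonneg (z m)
            nlinarith
        _ ≤ 15 * (64 / 10^6) := by
            rw [Finset.sum_const, Finset.card_erase_of_mem (Finset.mem_univ k)]
            simp
    have h2 : ∑ j ∈ Finset.univ.erase k, star (x j) * z j = -1 := by
      simp only [star_one, mul_one] at h0
      linear_combination h0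
    rw [h2, norm_neg, norm_one] at h1
    norm_num at h1
  · have hlk : l ≠ k := fun h => hkl h.symm
    have hl' : l ∈ (Finset.univ : Finset (Fin 16)).erase k := Finset.mem_erase.mpr ⟨hlk, Finset.mem_univ _⟩
    rw [← Finset.add_sum_erase _ _ (Finset.mem_univ k), ← Finset.add_sum_erase _ _ hl', hk, hl] at h0
    set s := (Finset.univ.erase k).erase l with hs
    have h1 : ‖(D k - D l) * ∑ j ∈ s, star (x j) * z j‖ ≤ 14 * (128 * (64 / 10^6)) := by
      rw [Finset.mul_sum]
      calc ‖∑ j ∈ s, (D k - D l) * (star (x j) * z j)‖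
          ≤ ∑ j ∈ s, ‖(D k - D l) * (star (x j) * z j)‖ := norm_sum_le _ _
        _ ≤ ∑ _j ∈ s, ((128 * (64 / 10^6)) : ℝ) := by
            refine Finset.sum_le_sum fun m hm => ?_
            have hml : m ≠ l := Finset.ne_of_mem_erase hm
            have hmk : m ≠ k := Finset.ne_of_mem_erase (Finset.mem_of_mem_erase hm)
            rw [norm_mul, norm_mul, norm_star]
            have a1 := ex1 m hmk
            have a2 := ex2 m hmk
            have a3 := ez1 m hml
            have a4 := ez2 m hml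
            have a5 := norm_nonneg (x m)
            have a6 := norm_nonneg (z m)
            have a7 : ‖D k - D l‖ ≤ ‖D k - D m‖ + ‖D l - D m‖ := by
              have : D k - D l = (D k - D m) - (D l - D m) := by ring
              rw [this]
              exact norm_sub_le _ _
            calc ‖D k - D l‖ * (‖x m‖ * ‖z m‖)
                ≤ (‖D k - D m‖ + ‖D l - D m‖) * (‖x m‖ * ‖z m‖) :=
                  mul_le_mul_of_nonneg_right a7 (by positivity)
              _ = (‖D k - D m‖ * ‖x m‖) * ‖z m‖ + (‖D l - D m‖ * ‖z m‖) * ‖x m‖ := by ring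
              _ ≤ 64 * (64 / 10^6) + 64 * (64 / 10^6) := by
                  gcongr
              _ = _ := by ring
        _ ≤ 14 * (128 * (64 / 10^6)) := by
            rw [Finset.sum_const, hs, Finset.card_erase_of_mem hl',
              Finset.card_erase_of_mem (Finset.mem_univ k)]
            simp
    have h2 := ex3 l hlk
    have h3 := ez3 k hkl
    have h4 : ‖(D k - D l) * star (x l) + Complex.I * (y l k : ℂ)‖ ≤ 64 * (64 / 10^6) := by
      have h5 : (D k - D l) * star (x l) + Complex.I * (y l k : ℂ) =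
          star ((D k - D l) * x l - Complex.I * (y l k : ℂ)) := by
        rw [star_sub, star_mul', star_mul', star_sub, hDs, hDs]
        simp
      rw [h5, norm_star]
      exact h2
    have h5 : (D k - D l) * (star (x l) * 1 + ∑ j ∈ s, star (x j) * z j + star 1 * z k) = 0 := by
      rw [show star (x l) * 1 + ∑ j ∈ s, star (x j) * z j + star 1 * z k =
        star 1 * z k + (star (x l) * 1 + ∑ j ∈ s, star (x j) * z j) by ring, h0, mul_zero]
    have h6 : Complex.I * ((2 * y l k : ℝ) : ℂ) =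
        ((D k - D l) * star (x l) + Complex.I * (y l k : ℂ)) +
        (D k - D l) * ∑ j ∈ s, star (x j) * z j -
        ((D l - D k) * z k - Complex.I * (y k l : ℂ)) := by
      rw [hsym k l]
      simp only [star_one] at h5
      push_cast
      linear_combination -h5
    have h7 : ‖Complex.I * ((2 * y l k : ℝ) : ℂ)‖ ≤
        64 * (64 / 10^6) + 14 * (128 * (64 / 10^6)) + 64 * (64 / 10^6) := by
      rw [h6]
      refine (norm_sub_le _ _).trans ?_
      refine add_le_add ((norm_add_le _ _).trans (add_le_add h4 h1)) h3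
    rw [norm_mul, Complex.norm_I, one_mul, Complex.norm_real,
      Real.norm_of_nonneg (by linarith [(hy l k).1])] at h7
    have h8 := (hy l k).1
    norm_num at h7
    linarith

/-- `diag D + i y` has no two orthogonal eigenvectors. -/
theorem no_orth (D : Fin 16 → ℂ) (hD : ∀ i j, i ≠ j → (10:ℝ)^6 ≤ ‖D i - D j‖)
    (hDs : ∀ i, star (D i) = D i)
    (y : Fin 16 → Fin 16 → ℝ) (hy : ∀ i j, 1 ≤ y i j ∧ y i j ≤ 2) (hsym : ∀ i j, y i j = y j i)
    (M : Matrix (Fin 16) (Fin 16) ℂ)
    (hM : M = diagonal D + Complex.I • (Matrix.of fun i j => (y i j : ℂ)))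
    (x z : Fin 16 → ℂ) (μ ν : ℂ) (hx0 : x ≠ 0) (hz0 : z ≠ 0)
    (hx : M *ᵥ x = μ • x) (hz : M *ᵥ z = ν • z) : star x ⬝ᵥ z ≠ 0 := by
  have key : ∀ (x : Fin 16 → ℂ) (μ : ℂ), x ≠ 0 → M *ᵥ x = μ • x →
      ∃ (c : ℂ) (k : Fin 16), c ≠ 0 ∧ c * x k = 1 ∧ (∀ j, ‖c * x j‖ ≤ 1) ∧
        (∀ j, (μ - D j) * (c * x j) = Complex.I * ∑ m, (y j m : ℂ) * (c * x m)) := by
    intro x μ hx0 hx
    obtain ⟨k, -, hk⟩ := Finset.exists_max_image (Finset.univ : Finset (Fin 16)) (fun j => ‖x j‖)
      ⟨0, Finset.mem_univ _⟩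
    have hxk : x k ≠ 0 := by
      intro h
      apply hx0
      ext j
      have := hk j (Finset.mem_univ _)
      rw [h, norm_zero] at this
      exact norm_le_zero_iff.mp this
    refine ⟨(x k)⁻¹, k, inv_ne_zero hxk, inv_mul_cancel₀ hxk, ?_, ?_⟩
    · intro j
      rw [norm_mul, norm_inv, inv_mul_le_iff₀ (norm_pos_iff.mpr hxk), mul_one]
      exact hk j (Finset.mem_univ _)
    · intro j
      have h := congrFun hx j
      rw [hM, Matrix.add_mulVec, Matrix.smul_mulVec, Pi.add_apply, Matrix.mulVec_diagonal,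
        Pi.smul_apply, Pi.smul_apply, smul_eq_mul, smul_eq_mul] at h
      simp only [Matrix.mulVec, dotProduct, Matrix.of_apply] at h
      have h2 : ∑ m, (y j m : ℂ) * ((x k)⁻¹ * x m) = (x k)⁻¹ * ∑ m, (y j m : ℂ) * x m := by
        rw [Finset.mul_sum]
        refine Finset.sum_congr rfl fun m _ => by ring
      rw [h2]
      linear_combination -(x k)⁻¹ * h
  obtain ⟨c, k, hc, hck, hcle, hceq⟩ := key x μ hx0 hx
  obtain ⟨e, l, he, hel, hele, heeq⟩ := key z ν hz0 hz
  have h := no_orth_norm D hD hDs y hy hsym (fun j => c * x j) (fun j => e * z j) μ ν hceq heeq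
    k l hck hel hcle hele
  intro h0
  apply h
  have h1 : ∑ j, star (c * x j) * (e * z j) = (star c * e) * (star x ⬝ᵥ z) := by
    rw [dotProduct, Finset.mul_sum]
    refine Finset.sum_congr rfl fun j _ => ?_
    rw [star_mul', Pi.star_apply]
    ring
  rw [h1, h0, mul_zero]

end K3h78.TT
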