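import Pool.Agent.K3h78.TT.A4
import Pool.Agent.K3h78.TT.A5

set_option autoImplicit false
set_option maxHeartbeats 400000
set_option linter.unusedSectionVars false

namespace K3h78.TT

open Matrix

section
variable {n : Type} [Fintype n] [DecidableEq n]

theorem conj_vec (N : Matrix n n ℂ) (u w : n → ℂ) :
    N * vecMulVec u (star w) * Nᴴ = vecMulVec (N *ᵥ u) (star (N *ᵥ w)) := by
  rw [Matrix.mul_vecMulVec, Matrix.vecMulVec_mul, Matrix.star_mulVec]

theorem smul_vec (β : ℝ) (u w : n → ℂ) :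
    vecMulVec ((β : ℂ) • u) (star ((β : ℂ) • w)) = ((β ^ 2 : ℝ) : ℂ) • vecMulVec u (star w) := by
  ext i j
  simp only [vecMulVec_apply, Pi.smul_apply, smul_eq_mul, Pi.star_apply, star_mul',
    Matrix.smul_apply, RCLike.star_def, Complex.conj_ofReal]
  push_cast
  ring

/-- Any matrix of the form `diag d + i Y` (with `d` rational and injective, `Y` Hermitian)
satisfying the displacement criterion has `Y` defined over a field with `8 n` generators. -/
theorem generated_of_model (d : n → ℚ) (hd : Function.Injective d) (M Y T : Matrix n n ℂ)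
    (k u v : n → ℂ) (hY : Yᴴ = Y)
    (hM : M = diagonal (fun i => (d i : ℂ)) + Complex.I • Y)
    (h1 : 1 - T * Tᴴ = vecMulVec k (star k)) (h2 : Small T)
    (h3 : M - T * M * Tᴴ = vecMulVec u (star k) + vecMulVec k (star v)) :
    ∃ g : n × Fin 8 → ℂ, ∀ i j, Y i j ∈ IntermediateField.adjoin ℚ (Set.range g) := by
  set D : Matrix n n ℂ := diagonal (fun i => (d i : ℂ)) with hDdef
  have hDh : Dᴴ = D := by
    rw [hDdef, Matrix.diagonal_conjTranspose]
    congr 1
    ext i
    simp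
  have hMh : Mᴴ = D - Complex.I • Y := by
    rw [hM, Matrix.conjTranspose_add, Matrix.conjTranspose_smul, hDh, hY]
    simp [sub_eq_add_neg]
  have h4 : Mᴴ - T * Mᴴ * Tᴴ = vecMulVec k (star u) + vecMulVec v (star k) := by
    have h := congrArg Matrix.conjTranspose h3
    rw [Matrix.conjTranspose_sub, Matrix.conjTranspose_add, Matrix.conjTranspose_mul,
      Matrix.conjTranspose_mul, Matrix.conjTranspose_conjTranspose,
      Matrix.conjTranspose_vecMulVec, Matrix.conjTranspose_vecMulVec, star_star, star_star] at h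
    rw [← h, Matrix.mul_assoc]
  have hI : (Complex.I : ℂ) * Complex.I = -1 := Complex.I_mul_I
  set a : n → ℂ := (1 / 2 : ℂ) • (u + v) with ha
  set b : n → ℂ := (-Complex.I / 2 : ℂ) • (u - v) with hb
  have hDM : D = (1 / 2 : ℂ) • (M + Mᴴ) := by
    rw [hMh, hM]
    module
  have hYM : Y = (-Complex.I / 2 : ℂ) • (M - Mᴴ) := by
    rw [hMh, hM]
    have : D + Complex.I • Y - (D - Complex.I • Y) = (2 * Complex.I) • Y := by module
    rw [this, smul_smul]
    have : (-Complex.I / 2) * (2 * Complex.I) = 1 := by linear_combination -hI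
    rw [this, one_smul]
  have h5 : D - T * D * Tᴴ = vecMulVec a (star k) + vecMulVec k (star a) := by
    have e1 : D - T * D * Tᴴ = (1 / 2 : ℂ) • ((M - T * M * Tᴴ) + (Mᴴ - T * Mᴴ * Tᴴ)) := by
      conv_lhs => rw [hDM]
      rw [Matrix.mul_smul, Matrix.smul_mul, Matrix.mul_add, Matrix.add_mul]
      module
    rw [e1, h3, h4]
    ext i j
    simp only [ha, vecMulVec_apply, Pi.smul_apply, smul_eq_mul, Pi.star_apply, star_mul',
      Matrix.smul_apply, Matrix.add_apply, Pi.add_apply, star_add]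
    have : star (1 / 2 : ℂ) = 1 / 2 := by simp
    rw [this]
    ring
  have h6 : Y - T * Y * Tᴴ = vecMulVec b (star k) + vecMulVec k (star b) := by
    have e1 : Y - T * Y * Tᴴ = (-Complex.I / 2 : ℂ) • ((M - T * M * Tᴴ) - (Mᴴ - T * Mᴴ * Tᴴ)) := by
      conv_lhs => rw [hYM]
      rw [Matrix.mul_smul, Matrix.smul_mul, Matrix.mul_sub, Matrix.sub_mul]
      module
    rw [e1, h3, h4]
    ext i j
    simp only [hb, vecMulVec_apply, Pi.smul_apply, smul_eq_mul, Pi.star_apply, star_mul',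
      Matrix.smul_apply, Matrix.add_apply, Matrix.sub_apply, Pi.sub_apply, star_sub]
    have : star (-Complex.I / 2 : ℂ) = Complex.I / 2 := by simp
    rw [this]
    ring
  obtain ⟨α, hα0, hα1, hu1, hu2⟩ := exists_shift T h2
  set N : Matrix n n ℂ := ((1 : Matrix n n ℂ) - (α : ℂ) • T)⁻¹ with hN
  have hNm : N * ((1 : Matrix n n ℂ) - (α : ℂ) • T) = 1 := Matrix.nonsing_inv_mul _ hu2
  have hNm' : ((1 : Matrix n n ℂ) - (α : ℂ) • T) * N = 1 := Matrix.mul_nonsing_inv _ hu2
  have hNdet : IsUnit N.det := by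
    have := congrArg Matrix.det hNm
    rw [Matrix.det_mul, Matrix.det_one] at this
    exact IsUnit.of_mul_eq_one _ this
  have hα2 : 0 < 1 - α ^ 2 := by nlinarith
  set β : ℝ := Real.sqrt (1 - α ^ 2) with hβ
  have hβ2 : β ^ 2 = 1 - α ^ 2 := Real.sq_sqrt hα2.le
  set T' : Matrix n n ℂ := N * (T - (α : ℂ) • (1 : Matrix n n ℂ)) with hT'
  have hT'u : IsUnit T'.det := by
    rw [hT', Matrix.det_mul]
    exact hNdet.mul hu1
  have disp : ∀ (X : Matrix n n ℂ) (p q : n → ℂ),
      X - T * X * Tᴴ = vecMulVec p (star k) + vecMulVec k (star q) →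
      X - T' * X * T'ᴴ = vecMulVec ((β : ℂ) • (N *ᵥ p)) (star ((β : ℂ) • (N *ᵥ k))) +
        vecMulVec ((β : ℂ) • (N *ᵥ k)) (star ((β : ℂ) • (N *ᵥ q))) := by
    intro X p q hX
    rw [hT', shift_displacement T N X α hNm, hX, Matrix.mul_add, Matrix.add_mul, conj_vec, conj_vec,
      smul_add, smul_vec, smul_vec, hβ2]
  have disp1 : 1 - T' * T'ᴴ = vecMulVec ((β : ℂ) • (N *ᵥ k)) (star ((β : ℂ) • (N *ᵥ k))) := by
    have h := shift_displacement T N 1 α hNm
    rw [Matrix.mul_one, Matrix.mul_one, h1, conj_vec] at h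
    rw [hT', h, smul_vec, hβ2]
  have inj' : ∀ X : Matrix n n ℂ, X - T' * X * T'ᴴ = 0 → X = 0 := by
    intro X hX
    rw [hT', shift_displacement T N X α hNm] at hX
    have hne : ((1 - α ^ 2 : ℝ) : ℂ) ≠ 0 := by exact_mod_cast hα2.ne'
    have h7 : N * (X - T * X * Tᴴ) * Nᴴ = 0 := by
      rcases smul_eq_zero.mp hX with h | h
      · exact absurd h hne
      · exact h
    have h8 : X - T * X * Tᴴ = 0 := by
      have e : X - T * X * Tᴴ = ((1 : Matrix n n ℂ) - (α : ℂ) • T) * (N * (X - T * X * Tᴴ) * Nᴴ) *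
          ((1 : Matrix n n ℂ) - (α : ℂ) • T)ᴴ := by
        have e2 : Nᴴ * ((1 : Matrix n n ℂ) - (α : ℂ) • T)ᴴ = 1 := by
          rw [← Matrix.conjTranspose_mul, hNm', Matrix.conjTranspose_one]
        calc X - T * X * Tᴴ = (((1 : Matrix n n ℂ) - (α : ℂ) • T) * N) * (X - T * X * Tᴴ) *
              (Nᴴ * ((1 : Matrix n n ℂ) - (α : ℂ) • T)ᴴ) := by
              rw [hNm', e2, Matrix.one_mul, Matrix.mul_one]
          _ = _ := by simp only [Matrix.mul_assoc]
      rw [e, h7, Matrix.mul_zero, Matrix.zero_mul]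
    exact inj_of_small T h2 X h8
  exact generated T' Y _ _ _ d hd hT'u disp1 (disp D a a h5) (disp Y b b h6) inj'

end

theorem exists_scale (r : ℝ) (hr : r ≠ 0) : ∃ q : ℚ, 1 ≤ (q : ℝ) * r ∧ (q : ℝ) * r ≤ 2 := by
  rcases lt_or_gt_of_ne hr with h | h
  · obtain ⟨q, hq1, hq2⟩ := exists_rat_btwn (show 2 / r < 1 / r by
      rw [div_lt_div_right_of_neg h]; norm_num)
    refine ⟨q, ?_, ?_⟩
    · have := (lt_div_iff_of_neg h).mp hq2
      linarith
    · have := (div_lt_iff_of_neg h).mp hq1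
      linarith
  · obtain ⟨q, hq1, hq2⟩ := exists_rat_btwn (show 1 / r < 2 / r by
      rw [div_lt_div_iff_of_pos_right h]; norm_num)
    refine ⟨q, ?_, ?_⟩
    · have := (div_lt_iff₀ h).mp hq1
      linarith
    · have := (lt_div_iff₀ h).mp hq2
      linarith

/-- A complex symmetric `16 × 16` matrix without orthogonal eigenvectors which is not a truncated
Toeplitz operator. -/
theorem counterexample :
    ∃ M : Matrix (Fin 16) (Fin 16) ℂ, Mᵀ = M ∧
      (¬ ∃ x y : Fin 16 → ℂ, ∃ a b : ℂ, x ≠ 0 ∧ y ≠ 0 ∧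
          M *ᵥ x = a • x ∧ M *ᵥ y = b • y ∧ star x ⬝ᵥ y = 0) ∧
      ¬ ∃ T : Matrix (Fin 16) (Fin 16) ℂ, ∃ k u v : Fin 16 → ℂ,
        1 - T * Tᴴ = Matrix.vecMulVec k (star k) ∧
        (∀ μ : ℂ, ∀ x : Fin 16 → ℂ, x ≠ 0 → T *ᵥ x = μ • x → ‖μ‖ < 1) ∧
        M - T * M * Tᴴ = Matrix.vecMulVec u (star k) + Matrix.vecMulVec k (star v) := by
  classical
  obtain ⟨r, hr⟩ := exists_indep (Sym2 (Fin 16))
  have hr0 : ∀ p, r p ≠ 0 := by
    intro p h
    apply hr.ne_zero p
    simp [h]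
  choose q hq using fun p => exists_scale (r p) (hr0 p)
  let y : Fin 16 → Fin 16 → ℝ := fun i j => (q s(i, j) : ℝ) * r s(i, j)
  have hy : ∀ i j, 1 ≤ y i j ∧ y i j ≤ 2 := fun i j => hq s(i, j)
  have hsym : ∀ i j, y i j = y j i := by
    intro i j
    show (q s(i, j) : ℝ) * r s(i, j) = (q s(j, i) : ℝ) * r s(j, i)
    rw [Sym2.eq_swap]
  let d : Fin 16 → ℚ := fun i => 10 ^ 6 * (i : ℚ)
  have hd : Function.Injective d := by
    intro i j h
    have h1 : (10 : ℚ) ^ 6 * (i : ℚ) = 10 ^ 6 * (j : ℚ) := h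
    have h2 : (i : ℚ) = (j : ℚ) := by linarith
    exact Fin.ext (by exact_mod_cast h2)
  let D : Fin 16 → ℂ := fun i => (d i : ℂ)
  have hDsep : ∀ i j, i ≠ j → (10:ℝ)^6 ≤ ‖D i - D j‖ := by
    intro i j hij
    have e : D i - D j = (((10:ℝ)^6 * (((i:ℕ):ℝ) - ((j:ℕ):ℝ)) : ℝ) : ℂ) := by
      simp only [D, d]
      push_cast
      ring
    rw [e, Complex.norm_real, Real.norm_eq_abs, abs_mul, abs_of_pos (by positivity : (0:ℝ) < 10^6)]
    have h1 : (1 : ℝ) ≤ |((i:ℕ):ℝ) - ((j:ℕ):ℝ)| := by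
      have h2 : ((i:ℕ):ℤ) - ((j:ℕ):ℤ) ≠ 0 := by
        intro h
        apply hij
        exact Fin.ext (by omega)
      have h3 := Int.one_le_abs h2
      have h4 : ((1:ℤ):ℝ) ≤ ((|((i:ℕ):ℤ) - ((j:ℕ):ℤ)| : ℤ) : ℝ) := by exact_mod_cast h3
      push_cast at h4
      exact h4
    nlinarith
  have hDs : ∀ i, star (D i) = D i := by
    intro i
    simp [D]
  set Y : Matrix (Fin 16) (Fin 16) ℂ := Matrix.of fun i j => (y i j : ℂ) with hYdef
  have hYh : Yᴴ = Y := by
    ext i j
    simp only [hYdef, Matrix.conjTranspose_apply, Matrix.of_apply, RCLike.star_def,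
      Complex.conj_ofReal]
    rw [hsym]
  set M : Matrix (Fin 16) (Fin 16) ℂ := diagonal D + Complex.I • Y with hM
  refine ⟨M, ?_, ?_, ?_⟩
  · rw [hM, Matrix.transpose_add, Matrix.diagonal_transpose, Matrix.transpose_smul]
    congr 2
    ext i j
    simp only [hYdef, Matrix.transpose_apply, Matrix.of_apply]
    rw [hsym]
  · rintro ⟨x, z, a, b, hx, hz, hax, hbz, horth⟩
    exact no_orth D hDsep hDs y hy hsym M hM x z a b hx hz hax hbz horth
  · rintro ⟨T, k, u, v, h1, h2, h3⟩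
    obtain ⟨g, hg⟩ := generated_of_model d hd M Y T k u v hYh hM h1 h2 h3
    have hmem : ∀ p, ((r p : ℝ) : ℂ) ∈ IntermediateField.adjoin ℚ (Set.range g) := by
      intro p
      induction p using Sym2.ind with
      | _ i j =>
        have h4 := hg i j
        have hq0 : (q s(i, j) : ℂ) ≠ 0 := by
          intro h
          have h5 := (hq s(i, j)).1
          have h6 : (q s(i, j) : ℝ) = 0 := by exact_mod_cast h
          rw [h6] at h5
          norm_num at h5
        have h5 : ((r s(i, j) : ℝ) : ℂ) = (q s(i, j) : ℂ)⁻¹ * Y i j := by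
          have : Y i j = (q s(i, j) : ℂ) * (r s(i, j) : ℂ) := by
            simp [hYdef, y]
          rw [this, ← mul_assoc, inv_mul_cancel₀ hq0, one_mul]
        rw [h5]
        refine mul_mem (inv_mem ?_) h4
        have := (IntermediateField.adjoin ℚ (Set.range g)).algebraMap_mem (q s(i, j))
        simpa using this
    have hc := count g (fun p => ((r p : ℝ) : ℂ)) hr hmem
    rw [Sym2.card, Fintype.card_prod, Fintype.card_fin, Fintype.card_fin] at hc
    norm_num [Nat.choose] at hc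

end K3h78.TT
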